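import Pool.Agent.Helper21.W4.St4

set_option autoImplicit false

namespace Pool.Agent.Helper8.W4

open Pool.Agent.Helper21.W4 Finset

private lemma nf_facts (A W : ℕ) (hA : 1 ≤ A) :
    0 ≤ nf A W ∧ nf A W ≤ 1 ∧ 3 * nf A W ≤ nf A W * ((W : ℤ) + 2) := by
  unfold nf
  split_ifs with h
  · simp
  · refine ⟨by norm_num, by norm_num, ?_⟩
    push Not at h
    have : (1 : ℤ) ≤ W := by exact_mod_cast hA.trans h
    linarith

theorem hG1 : StG1 := by
  intro _mono nnf neps star zv n3m x s H ε n t y z al n' t' y' z' al' hb hy ht hW hs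
  apply star x hb
  obtain ⟨hZ, hV⟩ := zv x s hb hy
  have hnf3 : nf x.A3 (W3 x) = 0 := by
    unfold nf
    rw [if_pos hW]
  obtain ⟨p1, p2, p3⟩ := nf_facts x.A1 (W1 x) hb.A1
  obtain ⟨q1, q2, q3⟩ := nf_facts x.A2 (W2 x) hb.A2
  generalize nf x.A1 (W1 x) = K1 at *
  generalize nf x.A2 (W2 x) = K2 at *
  rw [hnf3] at hZ hV
  have hw31 : x.w31 < x.A3 := lt_of_le_of_lt (le_max_left _ _) hW
  have hw32 : x.w32 < x.A3 := lt_of_le_of_lt (le_max_right _ _) hW
  obtain ⟨hn, htH⟩ := ht.s13 hw31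
  obtain ⟨hn', htH'⟩ := ht.s23 hw32
  subst hn
  subst hn'
  have hu1 := ht.u1
  have hu2 := ht.u2
  have hu3 := ht.u3
  have hx12 := ht.x12
  have hx13 := ht.x13
  have hx23 := ht.x23
  have hf := ht.f13
  have hf' := ht.f23
  have hd31 := ht.d31
  have hd32 := ht.d32
  have hdn := ht.dn
  have hsp := ht.sp
  have hL := ht.L
  have b1 := hb.d12
  have b2 := hb.d13
  have b3 := hb.d21
  have b4 := hb.d23
  have b5 := hb.d31
  have b6 := hb.d32
  have bk := hb.k12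
  have ba := hb.a12
  have c1 := hf.d
  have c2 := hf.k
  have c3 := hf.zt
  have c4 := hf.nt
  have c5 := hf.na
  have c6 := hf.a
  have d1 := hf'.d
  have d2 := hf'.k
  have d3 := hf'.zt
  have d4 := hf'.nt
  have d5 := hf'.na
  have d6 := hf'.a
  have e1 := hb.e12
  have hW1 : x.u1 + x.d12 + x.d13 ≤ W1 x := by
    unfold W1
    omega
  have hW2 : x.u2 + x.d21 + x.d23 ≤ W2 x := by
    unfold W2
    omega
  have hW3 : x.u3 + 1 ≤ W3 x := by
    unfold W3
    omega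
  have hP : 2 * (H + 1) ≤ 2 * (H + 1) * al := Nat.le_mul_of_pos_right _ (by omega)
  have hP' : 2 * (H + 1) ≤ 2 * (H + 1) * al' := Nat.le_mul_of_pos_right _ (by omega)
  have hX0 : X0 x ≤ 10 + H + 2 * ε + ((x.d12 : ℤ) + x.d21) + (y + z) + (y' + z') + x.k12 +
      (z + z') - 2 * x.dn := by
    unfold X0
    omega
  have he1 : 1 ≤ x.e12 := by
    apply e1.2.2.1
    omega
  have hε := ht.ε1
  have hcase : ε = 0 ∨ ε = 1 := by omega
  have hK1 : K1 = 0 ∨ K1 = 1 := by omega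
  have hK2 : K2 = 0 ∨ K2 = 1 := by omega
  rcases hcase with h0 | h0
  · have hgood : Good (12 + ((H : ℤ) - 2 * x.dn) + x.k12 + 0 + t + t')
        (((W1 x : ℤ) + W2 x + W3 x - s) + 1 + x.a12 + x.a13 + x.a23 + x.bk) := by
      apply n3m H x.e12 x.k12 (x.d12 + x.d21) 0 t t' ((H : ℤ) - 2 * x.dn) x.a12 <;> omega
    apply nnf _ _ _ _ (K1 + K2) hgood <;> try omega
  · obtain ⟨hH, h2e, h2u1, h2u2, h2al, h2al'⟩ := ht.ε2 h0
    have hs12 := ht.s12
    subst hH
    have ht0 : t = 0 := by omega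
    have ht0' : t' = 0 := by omega
    subst ht0
    subst ht0'
    have he3 : x.e12 ≤ 3 := by omega
    have hgood : Good (12 + (-(2 * (x.dn : ℤ))) + x.k12 + 0 + 0 + 0) (((x.d12 : ℤ) + x.d21) + x.a12 + 7) := by
      apply n3m 0 x.e12 x.k12 (x.d12 + x.d21) 0 0 0 (-(2 * (x.dn : ℤ))) x.a12 <;> omega
    have hgood2 : Good ((12 + (-(2 * (x.dn : ℤ))) + x.k12 + 0 + 0 + 0) - 3 * (K1 + K2))
        ((((x.d12 : ℤ) + x.d21) + x.a12 + 7) - (K1 + K2)) := by
      apply nnf _ _ _ _ (K1 + K2) hgood <;> omega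
    apply neps _ _ _ _ hgood2 <;> omega

end Pool.Agent.Helper8.W4
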