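import Pool.Agent.Helper21.W4.St3

set_option autoImplicit false

namespace Pool.Agent.Helper8.W4

open Pool.Agent.Helper21.W4 Finset

private lemma good_of (Z V Y : ℤ) (h : Z ≤ Y) (_hY : 0 ≤ Y) (h2 : Y ^ 2 ≤ 18 * V) : Good Z V := by
  unfold Good
  by_cases hZ : Z ≤ 0
  · exact Or.inl hZ
  · right
    have : 0 < Z := by omega
    nlinarith

private lemma phi2 (k a : ℤ) (hk : 0 ≤ k) (h2 : 2 ≤ a) (h : k * k + k ≤ 2 * a) :
    9 * k ^ 2 - 9 * k + 36 ≤ 18 * a := by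
  by_cases h1 : k ≤ 1
  · have : k = 0 ∨ k = 1 := by omega
    rcases this with rfl | rfl <;> omega
  · have : 2 ≤ k := by omega
    nlinarith

theorem hN2b : StN2b := by
  intro e k2 k3 a1 a2 a3 Z V he hk2 hk3 ha1 ha2 ha3 h1 h2 h3 hZ hV
  apply good_of Z V (11 + e + k2 + k3) (by linarith) (by linarith)
  have p2 := phi2 k2 a2 hk2 ha2 h2
  have p3 := phi2 k3 a3 hk3 ha3 h3
  by_cases he3 : e ≤ 2
  · have hee : e = 1 ∨ e = 2 := by omega
    rcases hee with rfl | rfl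
    · nlinarith [sq_nonneg (k2 - k3), sq_nonneg (k2 + k3 - 2)]
    · nlinarith [sq_nonneg (k2 - k3), sq_nonneg (2 * (k2 + k3) - 5)]
  · have he4 : 3 ≤ e := by omega
    have key : 0 ≤ 14 * (23 - 13 * e + 8 * e ^ 2) - (13 + 2 * e) ^ 2 := by nlinarith
    nlinarith [sq_nonneg (k2 - k3), sq_nonneg (7 * (k2 + k3) - (13 + 2 * e))]

theorem hN2f12 : StN2f12 := by
  intro e D k2 k3 a1 a2 a3 Z V he hD hDe hk2 hk3 ha2 ha3 h1 h2 h3 hZ hV
  apply good_of Z V (11 + D + k2 + k3) (by linarith) (by linarith)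
  have p2 := phi2 k2 a2 hk2 ha2 h2
  have p3 := phi2 k3 a3 hk3 ha3 h3
  have key : 0 < 54 * e ^ 2 - 342 * e + 1161 := by nlinarith [sq_nonneg (6 * e - 19)]
  have hDD : 4 * D + D ^ 2 + 2 * D * (k2 + k3) ≤ 8 * e + 4 * e ^ 2 + 4 * e * (k2 + k3) := by
    nlinarith [mul_nonneg hD (sub_nonneg.2 hDe), mul_nonneg (by linarith : (0:ℤ) ≤ k2 + k3)
      (sub_nonneg.2 hDe), mul_nonneg (by linarith : (0:ℤ) ≤ e) (sub_nonneg.2 hDe)]
  have hM : (k2 + k3) ^ 2 ≤ 2 * (k2 ^ 2 + k3 ^ 2) := by nlinarith [sq_nonneg (k2 - k3)]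
  have hq : 0 ≤ (7 * (k2 + k3) - 4 * e - 13) ^ 2 := sq_nonneg _
  nlinarith

theorem hN2f13 : StN2f13 := by
  intro e D x n a13 a12 a23 Z V he hD hDe hx hn h1 h2 h3 hZ hV
  apply good_of Z V (10 + D + x + n) (by linarith) (by linarith)
  have hxn : 0 ≤ x + n := by linarith
  have hDD : D ^ 2 + 2 * D * (x + n) + 2 * D ≤ 4 * e ^ 2 + 4 * e * (x + n) + 4 * e := by
    nlinarith [mul_nonneg hD (sub_nonneg.2 hDe), mul_nonneg hxn
      (sub_nonneg.2 hDe), mul_nonneg (by linarith : (0:ℤ) ≤ e) (sub_nonneg.2 hDe)]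
  have hpos : 0 ≤ 44 - 13 * e + 9 * e ^ 2 - 11 * x + 9 * x ^ 2 + 7 * n + 9 * n ^ 2
      - (2 * e + x + n) ^ 2 := by
    nlinarith [sq_nonneg (e - 2 * x), sq_nonneg (e - 2 * n), sq_nonneg (x - n), sq_nonneg (2 * x - 3),
      sq_nonneg (e - 2), sq_nonneg (e - x - n), sq_nonneg (2 * e - 5), sq_nonneg (2 * x - 2)]
  nlinarith

end Pool.Agent.Helper8.W4
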